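import Pool.Agent.Q266.MosUp

set_option autoImplicit false

open Finset

namespace Pool.Agent.Results.MP_007251_co.ExactValue

/-- A cograph: no induced path on four vertices. -/
def IsCograph {V : Type} (G : SimpleGraph V) : Prop := IsEmpty (SimpleGraph.pathGraph 4 ↪g G)

/-- `S` induces an odd subgraph: each vertex of `S` has an odd number of neighbours in `S`. -/
def OddInduced {V : Type} (G : SimpleGraph V) (S : Finset V) : Prop :=
  ∀ v ∈ S, Odd {u | u ∈ S ∧ G.Adj v u}.ncard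

/-- The largest number of vertices of an odd induced subgraph. -/
noncomputable def mos {n : ℕ} (G : SimpleGraph (Fin n)) : ℕ :=
  sSup {k | ∃ S : Finset (Fin n), OddInduced G S ∧ S.card = k}

/-- The least value of `mos` on cographs with `n` vertices and no isolated vertex. -/
noncomputable def m (n : ℕ) : ℕ :=
  sInf {k | ∃ G : SimpleGraph (Fin n), IsCograph G ∧ (∀ v, ∃ u, G.Adj v u) ∧ mos G = k}

lemma oddInduced_iff {V : Type} (G : SimpleGraph V) (S : Finset V) :
    OddInduced G S ↔ Pool.Agent.Q266.Mos.OddInd G S := by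
  classical
  unfold OddInduced Pool.Agent.Q266.Mos.OddInd
  refine forall₂_congr fun v _ => ?_
  have : {u | u ∈ S ∧ G.Adj v u} = ((S.filter (fun u => G.Adj v u) : Finset V) : Set V) := by
    ext u; simp
  rw [this, Set.ncard_coe_finset, Pool.Agent.Q266.Mos.dg]

lemma cograph_iff {V : Type} (G : SimpleGraph V) :
    IsCograph G ↔ Pool.Agent.Q266.Mos.P4Free G := by
  constructor
  · intro h a b c d hab hbc hcd
    by_contra hcon
    push Not at hcon
    obtain ⟨h1, h2, h3⟩ := hcon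
    have nac : a ≠ c := fun e => h3 (e ▸ hcd)
    have nbd : b ≠ d := fun e => h3 (e ▸ hab)
    have nad : a ≠ d := fun e => h1 (e ▸ hcd.symm)
    have nab := G.ne_of_adj hab
    have nbc := G.ne_of_adj hbc
    have ncd := G.ne_of_adj hcd
    refine h.false ⟨⟨![a, b, c, d], ?_⟩, ?_⟩
    · intro i j hij
      fin_cases i <;> fin_cases j <;> simp_all
    · intro i j
      have g1 : ¬ G.Adj c a := fun e => h1 e.symm
      have g2 : ¬ G.Adj d b := fun e => h2 e.symm
      have g3 : ¬ G.Adj d a := fun e => h3 e.symm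
      change G.Adj (![a, b, c, d] i) (![a, b, c, d] j) ↔ (SimpleGraph.pathGraph 4).Adj i j
      rw [SimpleGraph.pathGraph_adj]
      fin_cases i <;> fin_cases j <;>
        simp [hab, hbc, hcd, h1, h2, h3, hab.symm, hbc.symm, hcd.symm, g1, g2, g3]
  · intro h
    refine ⟨fun f => ?_⟩
    have e : ∀ i j : Fin 4, G.Adj (f i) (f j) ↔ (SimpleGraph.pathGraph 4).Adj i j := fun i j =>
      f.map_rel_iff
    have := h (f 0) (f 1) (f 2) (f 3)
    rw [e, e, e, e, e, e] at this
    simp only [SimpleGraph.pathGraph_adj] at this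
    revert this
    decide

lemma mos_bdd {n : ℕ} (G : SimpleGraph (Fin n)) :
    BddAbove {k | ∃ S : Finset (Fin n), OddInduced G S ∧ S.card = k} := by
  refine ⟨n, ?_⟩
  rintro k ⟨S, _, rfl⟩
  simpa using card_le_univ S

/-- `m(n) = 2⌈n/6⌉` for all `n ≥ 2`. -/
theorem result : ∀ n : ℕ, 2 ≤ n → m n = 2 * ((n + 5) / 6) := by
  intro n hn
  have hlow : ∀ G : SimpleGraph (Fin n), IsCograph G → (∀ v, ∃ u, G.Adj v u) →
      2 * ((n + 5) / 6) ≤ mos G := by
    intro G hG hiso
    obtain ⟨T, _, ho, hc⟩ := Pool.Agent.Q266.Mos.lower G ((cograph_iff G).1 hG) n univ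
      (by simp) (fun v _ => by
        obtain ⟨u, hu⟩ := hiso v
        exact ⟨u, mem_univ _, hu⟩)
    have hev := Pool.Agent.Q266.Mos.even_card_of_oddInd G T ho
    have h1 : T.card ≤ mos G := le_csSup (mos_bdd G) ⟨T, (oddInduced_iff G T).2 ho, rfl⟩
    rw [card_univ, Fintype.card_fin] at hc
    obtain ⟨t, ht⟩ := hev
    omega
  have hup : mos (Pool.Agent.Q266.Mos.tri n) ≤ 2 * ((n + 5) / 6) := by
    refine csSup_le ⟨0, ∅, fun v hv => absurd hv (notMem_empty _), rfl⟩ ?_
    rintro k ⟨S, hS, rfl⟩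
    exact Pool.Agent.Q266.Mos.tri_upper n hn S ((oddInduced_iff _ S).1 hS)
  have hmem : mos (Pool.Agent.Q266.Mos.tri n) ∈ {k | ∃ G : SimpleGraph (Fin n), IsCograph G ∧
      (∀ v, ∃ u, G.Adj v u) ∧ mos G = k} :=
    ⟨_, (cograph_iff _).2 (Pool.Agent.Q266.Mos.tri_p4 n), Pool.Agent.Q266.Mos.tri_iso n hn, rfl⟩
  refine le_antisymm ((Nat.sInf_le hmem).trans hup) ?_
  obtain ⟨G, hG, hiso, he⟩ := Nat.sInf_mem ⟨_, hmem⟩
  rw [m, ← he]
  exact hlow G hG hiso

end Pool.Agent.Results.MP_007251_co.ExactValue
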